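import Pool.Agent.Lib.P2cbf68.NonSep

/-!
# A negative answer to Q1 of MP_2cbf68_an

There is (in ZFC) a compact Hausdorff space `K` for which the supremum norm of `C(K)` is measurable
for the σ-algebra generated by the continuous linear functionals, while the closed unit ball of the
dual of `C(K)` is not weak-star separable.
-/

set_option autoImplicit false

namespace Pool.Agent.Results.MP_2cbf68_an.NegQ1

/-- `Ba(X,w)`: the smallest σ-algebra on `X` for which all continuous linear functionals are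
measurable. -/
@[reducible] def weakBaire (X : Type) [NormedAddCommGroup X] [NormedSpace ℝ X] :
    MeasurableSpace X :=
  ⨆ φ : X →L[ℝ] ℝ, MeasurableSpace.comap (fun x => φ x) inferInstance

/-- The closed unit ball of the dual of `X`, as a subset of the dual with its weak-star
topology. -/
def dualBall (X : Type) [NormedAddCommGroup X] [NormedSpace ℝ X] : Set (WeakDual ℝ X) :=
  {φ | ‖WeakDual.toStrongDual φ‖ ≤ 1}

/-- Negative answer to Q1. -/
theorem result : ∃ (K : Type) (_ : TopologicalSpace K) (_ : CompactSpace K) (_ : T2Space K),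
    @Measurable C(K, ℝ) ℝ (weakBaire C(K, ℝ)) inferInstance (fun f => ‖f‖) ∧
      ¬ TopologicalSpace.SeparableSpace (dualBall C(K, ℝ)) := by
  classical
  refine ⟨Pool.Agent.Lib.P2cbf68.Kc, inferInstance, inferInstance, inferInstance,
    Pool.Agent.Lib.P2cbf68.measurable_norm_Kc, ?_⟩
  intro hsep
  have hne : Nonempty (dualBall C(Pool.Agent.Lib.P2cbf68.Kc, ℝ)) := by
    refine ⟨⟨0, ?_⟩⟩
    unfold dualBall
    rw [Set.mem_ofPred_eq, map_zero, norm_zero]
    norm_num
  let d : ℕ → dualBall C(Pool.Agent.Lib.P2cbf68.Kc, ℝ) := TopologicalSpace.denseSeq _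
  have hd : DenseRange d := TopologicalSpace.denseRange_denseSeq _
  refine Pool.Agent.Lib.P2cbf68.no_seq (fun k => WeakDual.toStrongDual (d k).1)
    (fun k => (d k).2) ?_
  intro F hF
  -- the evaluation at `F`
  let a := Pool.Agent.Lib.P2cbf68.trim F
  let ev : C(Pool.Agent.Lib.P2cbf68.Kc, ℝ) →L[ℝ] ℝ :=
    LinearMap.mkContinuous
      { toFun := fun f => f a
        map_add' := fun _ _ => rfl
        map_smul' := fun _ _ => rfl } 1 (by
      intro f
      rw [one_mul]
      exact f.norm_coe_le_norm a)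
  have hev1 : ‖ev‖ ≤ 1 := LinearMap.mkContinuous_norm_le _ zero_le_one _
  have hev2 : ev (Pool.Agent.Lib.P2cbf68.ind F) = 1 := by
    change Pool.Agent.Lib.P2cbf68.ind F a = 1
    rw [Pool.Agent.Lib.P2cbf68.ind_apply, if_pos]
    intro ξ hξ
    exact (Pool.Agent.Lib.P2cbf68.trim_of_card (by omega)).2 hξ
  let O : Set (dualBall C(Pool.Agent.Lib.P2cbf68.Kc, ℝ)) :=
    {φ | 3 / 4 < φ.1 (Pool.Agent.Lib.P2cbf68.ind F)}
  have hO : IsOpen O := by
    have hc : Continuous (fun φ : dualBall C(Pool.Agent.Lib.P2cbf68.Kc, ℝ) =>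
        φ.1 (Pool.Agent.Lib.P2cbf68.ind F)) :=
      (WeakDual.eval_continuous (Pool.Agent.Lib.P2cbf68.ind F)).comp continuous_subtype_val
    exact isOpen_lt continuous_const hc
  have hOne : O.Nonempty := by
    refine ⟨⟨StrongDual.toWeakDual ev, ?_⟩, ?_⟩
    · unfold dualBall
      rw [Set.mem_ofPred_eq]
      exact hev1
    · change 3 / 4 < ev (Pool.Agent.Lib.P2cbf68.ind F)
      rw [hev2]
      norm_num
  obtain ⟨k, hk⟩ := hd.exists_mem_open hO hOne
  exact ⟨k, hk⟩

end Pool.Agent.Results.MP_2cbf68_an.NegQ1
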