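import Pool.Agent.Lib.P2cbQ.Main

/-!
# A negative answer to Q2 of MP_2cbf68_an

There is (in ZFC) a compact Hausdorff space `K` such that the dual of `C(K)` is weak-star
separable, but the supremum norm of `C(K)` is not measurable for the σ-algebra generated by the
continuous linear functionals.
-/

set_option autoImplicit false

namespace Pool.Agent.Results.MP_2cbf68_an.NegQ2

/-- `Ba(X,w)`: the smallest σ-algebra on `X` for which all continuous linear functionals are
measurable. -/
@[reducible] def weakBaire (X : Type) [NormedAddCommGroup X] [NormedSpace ℝ X] :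
    MeasurableSpace X :=
  ⨆ φ : X →L[ℝ] ℝ, MeasurableSpace.comap (fun x => φ x) inferInstance

/-- Negative answer to Q2. -/
theorem result : ∃ (K : Type) (_ : TopologicalSpace K) (_ : CompactSpace K) (_ : T2Space K),
    TopologicalSpace.SeparableSpace (WeakDual ℝ C(K, ℝ)) ∧
      ¬ @Measurable C(K, ℝ) ℝ (weakBaire C(K, ℝ)) inferInstance (fun f => ‖f‖) :=
  ⟨Pool.Agent.Lib.P2cbQ.Kc, inferInstance, inferInstance, inferInstance,
    Pool.Agent.Lib.P2cbQ.separable_dual, Pool.Agent.Lib.P2cbQ.not_measurable_norm⟩

end Pool.Agent.Results.MP_2cbf68_an.NegQ2
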